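import Pool.Agent.Helper12.MA.StC

/-!
# Project MA: module CUN (there are not cuts of both kinds)
-/

set_option autoImplicit false

namespace Pool.Agent.Helper40.MA

open Pool.Agent.Helper12.MA
open Pool.Agent.Helper51.AJ (IsMinor Planar Apex ExMinor Con Tch)
open Pool.Agent.Helper12.NK (rst Kc add cnt Pcy IsFace Cof plus)

private theorem card_three {V : Type} (a b c : V) : ({a, b, c} : Set V).ncard ≤ 3 := by
  have h1 := Set.ncard_insert_le a ({b, c} : Set V)
  have h2 := Set.ncard_insert_le b ({c} : Set V)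
  have h3 := Set.ncard_singleton c
  omega

private theorem card_four {V : Type} (a b c d : V) : ({a, b, c, d} : Set V).ncard ≤ 4 := by
  have h1 := Set.ncard_insert_le a ({b, c, d} : Set V)
  have h2 := card_three b c d
  omega

private theorem ne_of_four {V : Type} [Finite V] (a b c d : V) (h : ({a, b, c, d} : Set V).ncard = 4) :
    c ≠ b ∧ d ≠ b := by
  constructor
  · rintro rfl
    have h1 : ({a, c, c, d} : Set V) ⊆ {a, c, d} := by
      intro x hx
      simp only [Set.mem_insert_iff, Set.mem_singleton_iff] at hx ⊢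
      tauto
    have h2 := Set.ncard_le_ncard h1 (Set.toFinite _)
    have h3 := card_three a c d
    omega
  · rintro rfl
    have h1 : ({a, d, c, d} : Set V) ⊆ {a, c, d} := by
      intro x hx
      simp only [Set.mem_insert_iff, Set.mem_singleton_iff] at hx ⊢
      tauto
    have h2 := Set.ncard_le_ncard h1 (Set.toFinite _)
    have h3 := card_three a c d
    omega

theorem hCUN : StBAS → StSYM → StPVB → StCUA → StCUN := by
  intro hBAS hSYM hPVB hCUA V _ G z v p q r r' f1 f2 f3 f4 C σ b σ' b' X Y X' Y' K K'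
  obtain ⟨-, -, -, hdeg, -, hNb, -⟩ := hBAS V G C.bh
  have C' : Cfg G z v p q r' r f4 f3 f2 f1 := (hSYM V G z v p q r r' f1 f2 f3 f4 C).2.1
  obtain ⟨-, ⟨h2Y, h4X⟩, -⟩ := hCUA V G z v p q r r' f1 f2 f3 f4 C σ b X Y K
  obtain ⟨-, ⟨h3Y, h1X⟩, -⟩ := hCUA V G z v p q r' r f4 f3 f2 f1 C' σ' b' X' Y' K'
  have hvp : ¬ G.Adj v p := (hPVB V G z v p q r r' f1 f2 f3 f4 C).1
  obtain ⟨hσz, hbz⟩ := ne_of_four v z σ b K.sep.card
  obtain ⟨hσz', hbz'⟩ := ne_of_four v z σ' b' K'.sep.card
  have hb'Y : b' ∈ Y := (h2Y K'.bf).resolve_left hbz'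
  have hσ'X : σ' ∈ X := (h4X K'.sf).resolve_left hσz'
  have hσX' : σ ∈ X' := (h1X K.sf).resolve_left hσz
  have hbY' : b ∈ Y' := (h3Y K.bf).resolve_left hbz
  have hdis : ∀ a, a ∈ X → a ∈ Y → False := fun a h1 h2 => Set.disjoint_left.1 K.sep.dis h1 h2
  have hdis' : ∀ a, a ∈ X' → a ∈ Y' → False := fun a h1 h2 => Set.disjoint_left.1 K'.sep.dis h1 h2
  have hcov : ∀ a, a ∈ X ∨ a ∈ Y ∨ a = v ∨ a = z ∨ a = σ ∨ a = b := by
    intro a
    by_cases h : a ∈ ({v, z, σ, b} : Set V)
    · simp only [Set.mem_insert_iff, Set.mem_singleton_iff] at h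
      exact Or.inr (Or.inr h)
    · have h1 : a ∈ X ∪ Y := by rw [K.sep.cov]; exact h
      rcases h1 with h1 | h1
      · exact Or.inl h1
      · exact Or.inr (Or.inl h1)
  have hcov' : ∀ a, a ∈ X' ∨ a ∈ Y' ∨ a = v ∨ a = z ∨ a = σ' ∨ a = b' := by
    intro a
    by_cases h : a ∈ ({v, z, σ', b'} : Set V)
    · simp only [Set.mem_insert_iff, Set.mem_singleton_iff] at h
      exact Or.inr (Or.inr h)
    · have h1 : a ∈ X' ∪ Y' := by rw [K'.sep.cov]; exact h
      rcases h1 with h1 | h1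
      · exact Or.inl h1
      · exact Or.inr (Or.inl h1)
  have hout : ∀ a, (a ∈ X ∨ a ∈ Y) → a ≠ v ∧ a ≠ z ∧ a ≠ σ ∧ a ≠ b := by
    intro a ha
    have h1 : a ∈ ({v, z, σ, b} : Set V)ᶜ := by rw [← K.sep.cov]; exact ha
    simp only [Set.mem_compl_iff, Set.mem_insert_iff, Set.mem_singleton_iff, not_or] at h1
    exact h1
  have hout' : ∀ a, (a ∈ X' ∨ a ∈ Y') → a ≠ v ∧ a ≠ z ∧ a ≠ σ' ∧ a ≠ b' := by
    intro a ha
    have h1 : a ∈ ({v, z, σ', b'} : Set V)ᶜ := by rw [← K'.sep.cov]; exact ha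
    simp only [Set.mem_compl_iff, Set.mem_insert_iff, Set.mem_singleton_iff, not_or] at h1
    exact h1
  have hpX : p ∈ X := K.sep.xL
  have hqY : q ∈ Y := K.sep.yR
  have hpX' : p ∈ X' := K'.sep.xL
  have hqY' : q ∈ Y' := K'.sep.yR
  have hrY : r ∈ Y := K.rY
  have hsY' : r' ∈ Y' := K'.rY
  -- the neighbours of the set `A`
  have hA4 : Nb G ((X ∩ X') \ {p}) ⊆ {p, v, σ, σ'} := by
    rintro n ⟨hn, a, ⟨⟨haX, haX'⟩, hap⟩, han⟩
    have hap' : a ≠ p := hap
    have hY : n ∉ Y := fun h => hap' (K.sep.only a haX n h han).1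
    have hY' : n ∉ Y' := fun h => hap' (K'.sep.only a haX' n h han).1
    have hz : n ≠ z := by
      rintro rfl
      rcases (C.ds.nb a).1 han.symm with h | h | h | h | h
      · exact (hout a (Or.inl haX)).1 h
      · exact hap' h
      · exact hdis a haX (h ▸ hqY)
      · exact hdis a haX (h ▸ hrY)
      · exact hdis' a haX' (h ▸ hsY')
    have hb : n ≠ b := fun h => hY' (h ▸ hbY')
    have hb' : n ≠ b' := fun h => hY (h ▸ hb'Y)
    have hnA : n ∈ X → n ∈ X' → n = p := by
      intro h1 h2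
      by_contra h3
      exact hn ⟨⟨h1, h2⟩, h3⟩
    simp only [Set.mem_insert_iff, Set.mem_singleton_iff]
    rcases hcov n with h | h | h | h | h | h
    · rcases hcov' n with k | k | k | k | k | k
      · exact Or.inl (hnA h k)
      · exact absurd k hY'
      · exact Or.inr (Or.inl k)
      · exact absurd k hz
      · exact Or.inr (Or.inr (Or.inr k))
      · exact absurd k hb'
    · exact absurd h hY
    · exact Or.inr (Or.inl h)
    · exact absurd h hz
    · exact Or.inr (Or.inr (Or.inl h))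
    · exact absurd h hb
  have hAcard : (Nb G ((X ∩ X') \ {p})).ncard ≤ 4 :=
    (Set.ncard_le_ncard hA4 (Set.toFinite _)).trans (card_four p v σ σ')
  have hAe : ¬ ((X ∩ X') \ {p}).Nonempty := by
    intro hne
    have h1 := hNb _ hne hAcard
    have h2 : q ∈ ((X ∩ X') \ {p}) ∪ Nb G ((X ∩ X') \ {p}) := by rw [h1]; trivial
    rcases h2 with h2 | h2
    · exact hdis q h2.1.1 hqY
    · have h3 := hA4 h2
      simp only [Set.mem_insert_iff, Set.mem_singleton_iff] at h3
      rcases h3 with h3 | h3 | h3 | h3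
      · exact hdis q (h3 ▸ hpX) hqY
      · exact (hout q (Or.inr hqY)).1 h3
      · exact (hout q (Or.inr hqY)).2.2.1 h3
      · exact (hout' q (Or.inr hqY')).2.2.1 h3
  -- the neighbours of `p`
  have hp4 : {a | G.Adj p a} ⊆ ({q, z, σ, σ'} : Set V) := by
    intro a ha
    have ha' : G.Adj p a := ha
    have hv : a ≠ v := by
      rintro rfl
      exact hvp ha'.symm
    have hY : a ∈ Y → a = q := fun h => (K.sep.only p hpX a h ha').2
    have hY' : a ∈ Y' → a = q := fun h => (K'.sep.only p hpX' a h ha').2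
    simp only [Set.mem_insert_iff, Set.mem_singleton_iff]
    rcases hcov a with h | h | h | h | h | h
    · rcases hcov' a with k | k | k | k | k | k
      · exact absurd ⟨a, ⟨h, k⟩, fun e => G.ne_of_adj ha' (Set.mem_singleton_iff.1 e).symm⟩ hAe
      · exact Or.inl (hY' k)
      · exact absurd k hv
      · exact Or.inr (Or.inl k)
      · exact Or.inr (Or.inr (Or.inr k))
      · exact (hdis a h (k ▸ hb'Y)).elim
    · exact Or.inl (hY h)
    · exact absurd h hv
    · exact Or.inr (Or.inl h)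
    · exact Or.inr (Or.inr (Or.inl h))
    · exact Or.inl (hY' (h ▸ hbY'))
  have h5 := hdeg p
  have h6 := (Set.ncard_le_ncard hp4 (Set.toFinite _)).trans (card_four q z σ σ')
  omega

end Pool.Agent.Helper40.MA
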