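import Pool.Agent.Helper12.MA.StD
import Pool.Agent.Helper12.MA.Lib

/-!
# Project MA: module FUX (faces after adding an edge through a deleted vertex, third kind)
-/

set_option autoImplicit false

namespace Pool.Agent.Helper40.MA

open Pool.Agent.Helper12.MA
open Pool.Agent.Helper51.AJ (IsMinor Planar Apex ExMinor Con Tch tch_symm con_nonempty con_singleton con_pair con_union)
open Pool.Agent.Helper12.NK (rst Kc add cnt Pcy IsFace Cof plus NCr Crs StKCA StINS StPLS StCMB StCRX)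

/-- a connected set has an edge across every splitting -/
private theorem edge_across {V : Type} {G : SimpleGraph V} {S A : Set V} (hS : Con G S) {a b : V} (haS : a ∈ S)
    (haA : a ∈ A) (hbS : b ∈ S) (hbA : b ∉ A) : ∃ c ∈ S, ∃ d ∈ S, c ∈ A ∧ d ∉ A ∧ G.Adj c d := by
  obtain ⟨p⟩ := hS.preconnected ⟨a, haS⟩ ⟨b, hbS⟩
  obtain ⟨d, -, h1, h2⟩ := p.exists_boundary_dart {w | w.1 ∈ A} haA hbA
  exact ⟨d.fst.1, d.fst.2, d.snd.1, d.snd.2, h1, h2, d.adj⟩

/-- the component of `x` in `W` -/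
private def cmp {V : Type} (G : SimpleGraph V) (W : Set V) (x : V) : Set V := {w | ∃ S ⊆ W, Con G S ∧ x ∈ S ∧ w ∈ S}

private theorem cmp_sub {V : Type} {G : SimpleGraph V} {W : Set V} {x : V} : cmp G W x ⊆ W := by
  rintro w ⟨S, hS, -, -, hw⟩
  exact hS hw

private theorem cmp_self {V : Type} {G : SimpleGraph V} {W : Set V} {x : V} (hx : x ∈ W) : x ∈ cmp G W x :=
  ⟨{x}, Set.singleton_subset_iff.2 hx, con_singleton G x, rfl, rfl⟩

private theorem cmp_con {V : Type} {G : SimpleGraph V} {W : Set V} {x : V} (hx : x ∈ W) : Con G (cmp G W x) := by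
  refine G.induce_connected_of_patches x (cmp_self hx) ?_
  rintro v ⟨S, hS, hc, hxS, hv⟩
  exact ⟨S, fun w hw => ⟨S, hS, hc, hxS, hw⟩, hxS, hv, hc.preconnected _ _⟩

private theorem cmp_max {V : Type} {G : SimpleGraph V} {W : Set V} {x a b : V} (ha : a ∈ cmp G W x) (hb : b ∈ W)
    (h : G.Adj a b) : b ∈ cmp G W x := by
  obtain ⟨S, hS, hc, hxS, haS⟩ := ha
  refine ⟨S ∪ {b}, Set.union_subset hS (Set.singleton_subset_iff.2 hb),
    con_union hc (con_singleton G b) ⟨a, haS, b, rfl, h⟩, Or.inl hxS, Or.inr rfl⟩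

private theorem cast_cases {m a b : ℕ} (h : (a : ZMod m) = (b : ZMod m)) (hlt : a < b) (hb : b ≤ m) : a = 0 ∧ b = m := by
  have h1 : (m : ℕ) ∣ b - a := by
    have h2 : ((b - a : ℕ) : ZMod m) = 0 := by
      rw [Nat.cast_sub hlt.le, h, sub_self]
    exact (ZMod.natCast_eq_zero_iff _ _).1 h2
  have h3 := Nat.le_of_dvd (by omega) h1
  omega

private theorem con_inl {V : Type} {M : SimpleGraph V} {U K : Set V} (hK : K ⊆ U) (h : Con M K) :
    Con (plus M U) (Sum.inl '' K) := by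
  let f : M.induce K →g (plus M U).induce (Sum.inl '' K) :=
    { toFun := fun x => ⟨Sum.inl x.1, x.1, x.2, rfl⟩
      map_rel' := fun {x y} hxy => ⟨hxy, hK x.2, hK y.2⟩ }
  refine SimpleGraph.Connected.map f ?_ h
  rintro ⟨_, x, hx, rfl⟩
  exact ⟨⟨x, hx⟩, rfl⟩

/-- two sides of an induced cycle have no common face -/
private theorem core {V : Type} [Finite V] (M : SimpleGraph V) (U : Set V) (hP : Pn M U) (m : ℕ) (c : ZMod m → V)
    (hm : 3 ≤ m) (hinj : Function.Injective c) (hcU : Set.range c ⊆ U)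
    (hadj : ∀ i j, M.Adj (c i) (c j) ↔ (j = i + 1 ∨ i = j + 1)) (C₁ C₂ : Set V) (hcov : U \ Set.range c = C₁ ∪ C₂)
    (hdis : Disjoint C₁ C₂) (hc₁ : Con M C₁) (hc₂ : Con M C₂) (hnt : ¬ Tch M C₁ C₂) (a b : V) (ha : a ∈ C₁)
    (hb : b ∈ C₂) (hcof : Cof M U a b) : False := by
  have hnz : NeZero m := ⟨by omega⟩
  have hC₁ : ∀ z ∈ C₁, z ∈ U ∧ z ∉ Set.range c := fun z hz => by
    have : z ∈ U \ Set.range c := by rw [hcov]; exact Or.inl hz
    exact this
  have hC₂ : ∀ z ∈ C₂, z ∈ U ∧ z ∉ Set.range c := fun z hz => by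
    have : z ∈ U \ Set.range c := by rw [hcov]; exact Or.inr hz
    exact this
  obtain ⟨A, hA⟩ : ∃ A : Set V, A = {z | z ∈ Set.range c ∧ ∃ w ∈ C₁, M.Adj w z} := ⟨_, rfl⟩
  obtain ⟨B, hB⟩ : ∃ B : Set V, B = {z | z ∈ Set.range c ∧ ∃ w ∈ C₂, M.Adj w z} := ⟨_, rfl⟩
  have hAr : A ⊆ Set.range c := by rw [hA]; exact fun z hz => hz.1
  have hBr : B ⊆ Set.range c := by rw [hB]; exact fun z hz => hz.1
  rcases nCMB V m c A B hm hinj hAr hBr with ⟨i, k, hk, h1, h2⟩ | hcr
  · -- no crossing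
    obtain ⟨X, hX⟩ : ∃ X : Set V, X = {c i, c (i + k)} := ⟨_, rfl⟩
    have hXc : X.ncard < 3 := by
      rw [hX]
      have := Set.ncard_insert_le (c i) ({c (i + k)} : Set V)
      rw [Set.ncard_singleton] at this
      omega
    have hcon : Con M (U \ X) := hP.1.2 X hXc
    obtain ⟨L, hL⟩ : ∃ L : Set V, L = C₁ ∪ {z | ∃ t : ℕ, 0 < t ∧ t < k ∧ z = c (i + t)} := ⟨_, rfl⟩
    have hXr : ∀ z ∈ X, z ∈ Set.range c := by
      rw [hX]
      rintro z (rfl | rfl)
      · exact ⟨_, rfl⟩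
      · exact ⟨_, rfl⟩
    have haX : a ∈ U \ X := ⟨(hC₁ a ha).1, fun h => (hC₁ a ha).2 (hXr a h)⟩
    have hbX : b ∈ U \ X := ⟨(hC₂ b hb).1, fun h => (hC₂ b hb).2 (hXr b h)⟩
    have haL : a ∈ L := by rw [hL]; exact Or.inl ha
    have hbL : b ∉ L := by
      rw [hL]
      rintro (h | ⟨t, -, -, h⟩)
      · exact Set.disjoint_left.1 hdis h hb
      · exact (hC₂ b hb).2 ⟨_, h.symm⟩
    obtain ⟨u, hu, v, hv, huL, hvL, huv⟩ := edge_across hcon haX haL hbX hbL
    -- position of `v`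
    have hv2 : v ∈ C₂ ∨ ∃ t : ℕ, k < t ∧ t < m ∧ v = c (i + t) := by
      by_cases hvr : v ∈ Set.range c
      · right
        obtain ⟨j, rfl⟩ := hvr
        obtain ⟨t, ht⟩ : ∃ t : ℕ, t = (j - i).val := ⟨_, rfl⟩
        have htm : t < m := by rw [ht]; exact ZMod.val_lt _
        have hj : j = i + t := by
          rw [ht, ZMod.natCast_val, ZMod.cast_id', id]
          ring
        have ht0 : t ≠ 0 := by
          rintro h0
          apply hv.2
          rw [hX, hj, h0]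
          left
          simp
        have htk : t ≠ k := by
          rintro h0
          apply hv.2
          rw [hX, hj, h0]
          right
          rfl
        have htk2 : ¬ t < k := by
          intro h0
          apply hvL
          rw [hL]
          exact Or.inr ⟨t, by omega, h0, by rw [hj]⟩
        exact ⟨t, by omega, htm, by rw [hj]⟩
      · left
        have h3 : v ∈ C₁ ∪ C₂ := by rw [← hcov]; exact ⟨hv.1, hvr⟩
        rcases h3 with h3 | h3
        · exact absurd (by rw [hL]; exact Or.inl h3) hvL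
        · exact h3
    rw [hL] at huL
    rcases huL with hu1 | ⟨t, ht0, htk, rfl⟩
    · rcases hv2 with hv2 | ⟨s, hks, hsm, rfl⟩
      · exact hnt ⟨u, hu1, v, hv2, huv⟩
      · have h3 : c (i + s) ∈ A := by rw [hA]; exact ⟨⟨_, rfl⟩, u, hu1, huv⟩
        obtain ⟨t', ht', he⟩ := h1 _ h3
        have h4 : ((t' : ℕ) : ZMod m) = (s : ZMod m) := (add_left_cancel (hinj he)).symm
        have := cast_cases h4 (by omega) hsm.le
        omega
    · rcases hv2 with hv2 | ⟨s, hks, hsm, rfl⟩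
      · have h3 : c (i + t) ∈ B := by rw [hB]; exact ⟨⟨_, rfl⟩, v, hv2, huv.symm⟩
        obtain ⟨t', ht', htm', he⟩ := h2 _ h3
        have h4 : ((t : ℕ) : ZMod m) = (t' : ZMod m) := add_left_cancel (hinj he)
        have := cast_cases h4 (by omega) htm'
        omega
      · rcases (hadj _ _).1 huv with h3 | h3
        · have h4 : ((t + 1 : ℕ) : ZMod m) = (s : ZMod m) := by
            push_cast
            rw [add_assoc] at h3
            exact (add_left_cancel h3).symm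
          have := cast_cases h4 (by omega) hsm.le
          omega
        · have h4 : ((t : ℕ) : ZMod m) = ((s + 1 : ℕ) : ZMod m) := by
            push_cast
            rw [add_assoc] at h3
            exact add_left_cancel h3
          have := cast_cases h4 (by omega) (by omega)
          omega
  · -- crossing
    obtain ⟨h, hh, hah, hbh⟩ := hcof
    have hpl : Planar (plus M U) := nPLS V M U hP.1 hP.2
    obtain ⟨S, hS⟩ : ∃ S : ZMod m → Set (V ⊕ {F : Set V // IsFace M U F}), S = fun i => {Sum.inl (c i)} := ⟨_, rfl⟩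
    obtain ⟨P, hPd⟩ : ∃ P : Set (V ⊕ {F : Set V // IsFace M U F}), P = Sum.inl '' C₁ ∪ {Sum.inr ⟨h, hh⟩} := ⟨_, rfl⟩
    obtain ⟨Q, hQd⟩ : ∃ Q : Set (V ⊕ {F : Set V // IsFace M U F}), Q = Sum.inl '' C₂ := ⟨_, rfl⟩
    have hPc : Con (plus M U) P := by
      rw [hPd]
      refine con_union (con_inl (fun z hz => (hC₁ z hz).1) hc₁) (con_singleton _ _) ⟨Sum.inl a, ⟨a, ha, rfl⟩, _, rfl, ?_⟩
      exact hah
    have hQc : Con (plus M U) Q := by
      rw [hQd]
      exact con_inl (fun z hz => (hC₂ z hz).1) hc₂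
    have hcr' : Crs m (fun i : ZMod m => i) {i | c i ∈ A} {i | c i ∈ B} := by
      rcases hcr with hcr | ⟨x, y, z, hxy, hyz, hxz, hxA, hxB, hyA, hyB, hzA, hzB⟩
      · exact Or.inl hcr
      · right
        obtain ⟨i, rfl⟩ := hAr hxA
        obtain ⟨j, rfl⟩ := hAr hyA
        obtain ⟨k, rfl⟩ := hAr hzA
        exact ⟨i, j, k, fun e => hxy (by rw [e]), fun e => hyz (by rw [e]), fun e => hxz (by rw [e]), hxA, hxB, hyA, hyB,
          hzA, hzB⟩
    refine (nCRX _ (plus M U) m S P Q {i | c i ∈ A} {i | c i ∈ B} hm ?_ ?_ ?_ hPc hQc ?_ ?_ ?_ ?_ ?_ hcr').1 ?_ hpl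
    · intro i
      rw [hS]
      exact con_singleton _ _
    · intro i j hij
      rw [hS]
      refine Set.disjoint_singleton.2 fun e => hij (hinj ?_)
      exact Sum.inl_injective e
    · intro i
      rw [hS]
      refine ⟨_, rfl, _, rfl, ?_⟩
      exact ⟨(hadj i (i + 1)).2 (Or.inl rfl), hcU ⟨i, rfl⟩, hcU ⟨i + 1, rfl⟩⟩
    · rw [hPd, hQd, Set.disjoint_left]
      rintro z (⟨w, hw, rfl⟩ | rfl) ⟨w', hw', e⟩
      · have e' : w' = w := Sum.inl_injective e
        exact Set.disjoint_left.1 hdis hw (e' ▸ hw')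
      · exact absurd e (by simp)
    · intro i
      rw [hPd, hS, Set.disjoint_singleton_right]
      rintro (⟨w, hw, e⟩ | e)
      · have e' : w = c i := Sum.inl_injective e
        exact (hC₁ w hw).2 ⟨i, e'.symm⟩
      · exact absurd e (by simp)
    · intro i
      rw [hQd, hS, Set.disjoint_singleton_right]
      rintro ⟨w, hw, e⟩
      have e' : w = c i := Sum.inl_injective e
      exact (hC₂ w hw).2 ⟨i, e'.symm⟩
    · intro i hi
      have hi' : c i ∈ A := hi
      rw [hA] at hi'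
      obtain ⟨-, w, hw, hwi⟩ := hi'
      rw [hPd, hS]
      exact ⟨Sum.inl w, Or.inl ⟨w, hw, rfl⟩, Sum.inl (c i), rfl, hwi, (hC₁ w hw).1, hcU ⟨i, rfl⟩⟩
    · intro i hi
      have hi' : c i ∈ B := hi
      rw [hB] at hi'
      obtain ⟨-, w, hw, hwi⟩ := hi'
      rw [hQd, hS]
      exact ⟨Sum.inl w, ⟨w, hw, rfl⟩, Sum.inl (c i), rfl, hwi, (hC₂ w hw).1, hcU ⟨i, rfl⟩⟩
    · rw [hPd, hQd]
      exact ⟨Sum.inr ⟨h, hh⟩, Or.inr rfl, Sum.inl b, ⟨b, hb, rfl⟩, hbh⟩

theorem hFUX : StFAX → StEDG → StFUE → StFUX := by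
  intro _ hEDG hFUE V _ M U u x y o hP hu hx hy ho hux huy hxy hncof hcx hcy hK F hF hnF
  by_contra hcon
  obtain ⟨hpl', -, -⟩ := hFUE V M U u x y hP hu hx hy hux huy hxy hncof hcx hcy hK
  obtain ⟨m, c, ⟨hm, hinj, hcU, hadj, hconn⟩, hr⟩ := id hF
  -- the cycle in `M`
  have hMM : ∀ p q, M.Adj p q → (ae M x y).Adj p q := fun p q h => Or.inl h
  have hFxy : ¬ (x ∈ Set.range c ∧ y ∈ Set.range c) := by rw [hr]; exact hcon
  have hadj' : ∀ i j, M.Adj (c i) (c j) ↔ (j = i + 1 ∨ i = j + 1) := by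
    intro i j
    rw [← hadj i j]
    constructor
    · exact hMM _ _
    · rintro (h | ⟨-, ⟨h1, h2⟩ | ⟨h1, h2⟩⟩)
      · exact h
      · exact absurd ⟨⟨i, h1⟩, ⟨j, h2⟩⟩ hFxy
      · exact absurd ⟨⟨j, h2⟩, ⟨i, h1⟩⟩ hFxy
  have hcU' : Set.range c ⊆ U := fun z hz => (hcU hz).1
  have hur : u ∉ Set.range c := fun h => (hcU h).2 rfl
  have hnc : ¬ Con M (U \ Set.range c) := fun h => hnF ⟨m, c, ⟨hm, hinj, hcU', hadj', h⟩, hr⟩
  obtain ⟨W, hW⟩ : ∃ W : Set V, W = (U \ {u}) \ Set.range c := ⟨_, rfl⟩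
  rw [← hW] at hconn
  have hWu : U \ Set.range c = W ∪ {u} := by
    rw [hW]
    ext z
    constructor
    · intro hz
      by_cases hzu : z = u
      · exact Or.inr hzu
      · exact Or.inl ⟨⟨hz.1, hzu⟩, hz.2⟩
    · rintro (hz | hz)
      · exact ⟨hz.1.1, hz.2⟩
      · rw [Set.mem_singleton_iff.1 hz]
        exact ⟨hu, hur⟩
  -- (a)
  obtain ⟨n, hnW, hun⟩ : ∃ n ∈ W, M.Adj u n := by
    by_contra hno
    push Not at hno
    have hsub : {b | b ∈ U ∧ M.Adj u b} ⊆ F := by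
      rintro z ⟨hz, huz⟩
      by_contra hzF
      refine hno z ?_ huz
      rw [hW, hr]
      exact ⟨⟨hz, fun e => M.ne_of_adj huz (Set.mem_singleton_iff.1 e).symm⟩, hzF⟩
    have h1 : Planar (add (rst (ae M x y) (U \ {u})) u {b | b ∈ U ∧ M.Adj u b}) :=
      nINS V (ae M x y) (U \ {u}) F _ u hK hpl' hF hsub (fun h => h.2 rfl)
    have h2 : rst (ae M x y) U ≤ add (rst (ae M x y) (U \ {u})) u {b | b ∈ U ∧ M.Adj u b} := by
      intro p q hpq
      obtain ⟨h3, hp, hq⟩ := hpq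
      have hedge : ∀ q, (ae M x y).Adj u q → M.Adj u q := by
        rintro q (h | ⟨-, ⟨h1, -⟩ | ⟨h1, -⟩⟩)
        · exact h
        · exact absurd h1 hux
        · exact absurd h1 huy
      by_cases hpu : p = u
      · rw [hpu] at h3
        exact Or.inr (Or.inl ⟨hpu, ⟨hq, hedge q h3⟩, fun e => (ae M x y).ne_of_adj h3 e.symm⟩)
      · by_cases hqu : q = u
        · rw [hqu] at h3
          exact Or.inr (Or.inr ⟨hqu, ⟨hp, hedge p h3.symm⟩, hpu⟩)
        · exact Or.inl ⟨h3, ⟨hp, hpu⟩, ⟨hq, hqu⟩⟩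
    obtain ⟨-, -, -, -, -, k6, -, -⟩ := nKCA V M U
    exact hncof ((hEDG V M U x y o hP hx hy hxy ho).1 (k6 _ _ h2 h1))
  -- (b)
  have hncW : ¬ Con M W := by
    intro h
    apply hnc
    rw [hWu]
    exact con_union h (con_singleton M u) ⟨n, hnW, u, rfl, hun.symm⟩
  have hxyW : x ∈ W ∧ y ∈ W := by
    by_contra hno
    apply hncW
    obtain ⟨-, -, -, -, k5, -, -, -⟩ := nKCA V M U
    refine (k5 (ae M x y) W ?_).2 hconn
    intro p hp q hq
    constructor
    · exact hMM _ _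
    · rintro (h | ⟨-, ⟨h1, h2⟩ | ⟨h1, h2⟩⟩)
      · exact h
      · exact absurd ⟨h1 ▸ hp, h2 ▸ hq⟩ hno
      · exact absurd ⟨h2 ▸ hq, h1 ▸ hp⟩ hno
  obtain ⟨hxW, hyW⟩ := hxyW
  have hKc := cmp_con (G := M) hxW
  have hKc' := cmp_con (G := M) hyW
  have hcovW : W = cmp M W x ∪ cmp M W y := by
    refine Set.Subset.antisymm ?_ (Set.union_subset cmp_sub cmp_sub)
    intro w hw
    by_contra hwn
    obtain ⟨p, hp, q, hq, hpA, hqA, hpq⟩ := edge_across (A := cmp M W x ∪ cmp M W y) hconn hxW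
      (Or.inl (cmp_self hxW)) hw hwn
    rcases hpq with hpq | ⟨-, ⟨h1, h2⟩ | ⟨h1, h2⟩⟩
    · rcases hpA with hpA | hpA
      · exact hqA (Or.inl (cmp_max hpA hq hpq))
      · exact hqA (Or.inr (cmp_max hpA hq hpq))
    · exact hqA (Or.inr (by rw [h2]; exact cmp_self hyW))
    · exact hqA (Or.inl (by rw [h2]; exact cmp_self hxW))
  have hdisW : Disjoint (cmp M W x) (cmp M W y) := by
    rw [Set.disjoint_left]
    intro w h1 h2
    apply hncW
    rw [hcovW]
    exact SimpleGraph.induce_union_connected hKc.preconnected hKc'.preconnected ⟨w, h1, h2⟩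
  have hntW : ¬ Tch M (cmp M W x) (cmp M W y) := by
    intro h
    apply hncW
    rw [hcovW]
    exact con_union hKc hKc' h
  have huW : u ∉ W := by rw [hW]; exact fun h => h.1.2 rfl
  have hux' : u ∉ cmp M W x := fun h => huW (cmp_sub h)
  have huy' : u ∉ cmp M W y := fun h => huW (cmp_sub h)
  -- (c)
  have hnot : ¬ (Tch M {u} (cmp M W x) ∧ Tch M {u} (cmp M W y)) := by
    rintro ⟨h1, h2⟩
    apply hnc
    rw [hWu, hcovW]
    have h3 : Con M ({u} ∪ cmp M W x) := con_union (con_singleton M u) hKc h1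
    have h4 : Con M ({u} ∪ cmp M W y) := con_union (con_singleton M u) hKc' h2
    have h5 : (cmp M W x ∪ cmp M W y) ∪ {u} = ({u} ∪ cmp M W x) ∪ ({u} ∪ cmp M W y) := by
      ext z
      simp only [Set.mem_union, Set.mem_singleton_iff]
      tauto
    rw [h5]
    exact SimpleGraph.induce_union_connected h3.preconnected h4.preconnected ⟨u, Or.inl rfl, Or.inl rfl⟩
  have hcof_symm : ∀ p q, Cof M U p q → Cof M U q p := fun p q ⟨G, hG, h1, h2⟩ => ⟨G, hG, h2, h1⟩
  by_cases htx : Tch M {u} (cmp M W x)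
  · -- `C₂ = K ∪ {u}`, `C₁ = K'`
    have hty : ¬ Tch M {u} (cmp M W y) := fun h => hnot ⟨htx, h⟩
    refine core M U hP m c hm hinj hcU' hadj' (cmp M W y) (cmp M W x ∪ {u}) ?_ ?_ hKc' ?_ ?_ y u (cmp_self hyW)
      (Or.inr rfl) (hcof_symm _ _ hcy)
    · rw [hWu]
      nth_rewrite 1 [hcovW]
      ext z
      simp only [Set.mem_union, Set.mem_singleton_iff]
      tauto
    · rw [Set.disjoint_left]
      rintro w h1 (h2 | h2)
      · exact Set.disjoint_left.1 hdisW h2 h1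
      · rw [Set.mem_singleton_iff.1 h2] at h1
        exact huy' h1
    · exact con_union hKc (con_singleton M u) (tch_symm htx)
    · rintro ⟨p, hp, q, hq | hq, hpq⟩
      · exact hntW ⟨q, hq, p, hp, hpq.symm⟩
      · exact hty ⟨q, hq, p, hp, hpq.symm⟩
  · have hty : Tch M {u} (cmp M W y) := by
      have h1 : n ∈ cmp M W x ∪ cmp M W y := by rw [← hcovW]; exact hnW
      rcases h1 with h1 | h1
      · exact absurd ⟨u, rfl, n, h1, hun⟩ htx
      · exact ⟨u, rfl, n, h1, hun⟩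
    refine core M U hP m c hm hinj hcU' hadj' (cmp M W x) (cmp M W y ∪ {u}) ?_ ?_ hKc ?_ ?_ x u (cmp_self hxW)
      (Or.inr rfl) (hcof_symm _ _ hcx)
    · rw [hWu]
      nth_rewrite 1 [hcovW]
      ext z
      simp only [Set.mem_union, Set.mem_singleton_iff]
      tauto
    · rw [Set.disjoint_left]
      rintro w h1 (h2 | h2)
      · exact Set.disjoint_left.1 hdisW h1 h2
      · rw [Set.mem_singleton_iff.1 h2] at h1
        exact hux' h1
    · exact con_union hKc' (con_singleton M u) (tch_symm hty)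
    · rintro ⟨p, hp, q, hq | hq, hpq⟩
      · exact hntW ⟨p, hp, q, hq, hpq⟩
      · exact htx ⟨q, hq, p, hp, hpq.symm⟩

end Pool.Agent.Helper40.MA
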